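import Pool.Agent.R273.DvMild

/-!
MP_8bcfe8_an: the optimal velocity constant `K(A, c)` is decreasing in the damping `c`.
-/

namespace Pool.Agent.Results.MP_8bcfe8_an.DampingMonotone

open MeasureTheory R273.Dv

theorem result {X : Type*} [MeasurableSpace X] (μ : Measure X) (a : X → ℝ) (ha : Measurable a)
    (b : ℝ) (hb : 0 < b) (hab : ∀ x, b ≤ a x) :
    (∀ c, 0 < c → IsLeast {K | IsAdmissible μ a c K} (velConst μ a c)) ∧
    (∀ c₁ c₂, 0 < c₁ → c₁ < c₂ → velConst μ a c₂ ≤ velConst μ a c₁) :=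
  ⟨fun _ hc => isLeast_velConst ha hb hab hc,
    fun _ _ hc1 hcc => velConst_antitone ha hb hab hc1 hcc.le⟩

end Pool.Agent.Results.MP_8bcfe8_an.DampingMonotone
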